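import Mathlib
import Pool.Agent.H221R3.MD.Stmts

/-!
# Distances in Cartesian powers of graphs
-/

set_option autoImplicit false

namespace Pool.Agent.H679R3.MD

open SimpleGraph

variable {V : Type} {n : ℕ}

/-- the Cartesian power of a graph -/
abbrev cart (G : SimpleGraph V) (n : ℕ) : SimpleGraph (Fin n → V) :=
  SimpleGraph.fromRel (fun a b : Fin n → V =>
    ∃ i : Fin n, G.Adj (a i) (b i) ∧ ∀ j : Fin n, j ≠ i → a j = b j)

lemma adj_update (G : SimpleGraph V) (x : Fin n → V) (i : Fin n) {a b : V} (h : G.Adj a b) :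
    (cart G n).Adj (Function.update x i a) (Function.update x i b) := by
  rw [SimpleGraph.fromRel_adj]
  refine ⟨?_, Or.inl ⟨i, ?_, ?_⟩⟩
  · intro hab
    have := congrFun hab i
    simp only [Function.update_self] at this
    exact h.ne this
  · simpa using h
  · intro j hj
    simp [hj]

lemma walk_update (G : SimpleGraph V) (x : Fin n → V) (i : Fin n) {a b : V} (w : G.Walk a b) :
    ∃ w' : (cart G n).Walk (Function.update x i a) (Function.update x i b),
      w'.length = w.length := by
  induction w with
  | nil => exact ⟨SimpleGraph.Walk.nil, rfl⟩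
  | cons h w ih =>
    obtain ⟨w', hw'⟩ := ih
    exact ⟨SimpleGraph.Walk.cons (adj_update G x i h) w', by simp [hw']⟩

lemma walk_piecewise (G : SimpleGraph V) (hG : G.Connected) (x y : Fin n → V)
    (s : Finset (Fin n)) :
    ∃ w : (cart G n).Walk x (s.piecewise y x), w.length = ∑ i ∈ s, G.dist (x i) (y i) := by
  classical
  induction s using Finset.induction_on with
  | empty => exact ⟨(SimpleGraph.Walk.nil : (cart G n).Walk x x).copy rfl (by simp), by simp⟩
  | insert i s hi ih =>
    obtain ⟨w, hw⟩ := ih
    obtain ⟨u, hu⟩ := hG.exists_walk_length_eq_dist (x i) (y i)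
    obtain ⟨u', hu'⟩ := walk_update G (s.piecewise y x) i u
    have e1 : Function.update (s.piecewise y x) i (x i) = s.piecewise y x := by
      rw [Function.update_eq_self_iff]
      simp [hi]
    have e2 : Function.update (s.piecewise y x) i (y i) = (insert i s).piecewise y x := by
      rw [Finset.piecewise_insert]
    refine ⟨w.append (u'.copy e1 e2), ?_⟩
    rw [SimpleGraph.Walk.length_append, SimpleGraph.Walk.length_copy, hw, hu', hu,
      Finset.sum_insert hi, add_comm]

lemma sum_le_length (G : SimpleGraph V) (hG : G.Connected) {x y : Fin n → V}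
    (w : (cart G n).Walk x y) : ∑ i, G.dist (x i) (y i) ≤ w.length := by
  classical
  induction w with
  | nil => simp
  | @cons x z y h w ih =>
    rw [SimpleGraph.Walk.length_cons]
    have key : ∃ i, (G.Adj (x i) (z i)) ∧ ∀ j, j ≠ i → x j = z j := by
      rw [SimpleGraph.fromRel_adj] at h
      rcases h.2 with ⟨i, h1, h2⟩ | ⟨i, h1, h2⟩
      · exact ⟨i, h1, h2⟩
      · exact ⟨i, h1.symm, fun j hj => (h2 j hj).symm⟩
    obtain ⟨i, h1, h2⟩ := key
    have e : ∀ u : Fin n → V, ∑ j, G.dist (u j) (y j) =
        G.dist (u i) (y i) + ∑ j ∈ Finset.univ.erase i, G.dist (u j) (y j) := fun u =>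
      (Finset.add_sum_erase _ _ (Finset.mem_univ i)).symm
    rw [e x]
    rw [e z] at ih
    have e3 : ∑ j ∈ Finset.univ.erase i, G.dist (x j) (y j) =
        ∑ j ∈ Finset.univ.erase i, G.dist (z j) (y j) := by
      refine Finset.sum_congr rfl fun j hj => ?_
      rw [h2 j (Finset.ne_of_mem_erase hj)]
    rw [e3]
    have h3 := hG.dist_triangle (u := x i) (v := z i) (w := y i)
    have h4 : G.dist (x i) (z i) = 1 := SimpleGraph.dist_eq_one_iff_adj.2 h1
    omega

theorem dist_cart (G : SimpleGraph V) (hG : G.Connected) (x y : Fin n → V) :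
    (cart G n).dist x y = ∑ i, G.dist (x i) (y i) := by
  classical
  obtain ⟨w, hw⟩ := walk_piecewise G hG x y Finset.univ
  have e : Finset.univ.piecewise y x = y := Finset.piecewise_univ _ _
  apply le_antisymm
  · rw [← hw]
    have := SimpleGraph.dist_le (w.copy rfl e)
    rwa [SimpleGraph.Walk.length_copy] at this
  · have hr : (cart G n).Reachable x y := ⟨w.copy rfl e⟩
    obtain ⟨v, hv⟩ := hr.exists_walk_length_eq_dist
    rw [← hv]
    exact sum_le_length G hG v

theorem taskF : Pool.Agent.H221R3.MD.TaskF := fun _ _ G hG x s => dist_cart G hG x s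

end Pool.Agent.H679R3.MD
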